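import Mathlib

/-!
ET0L grammars and left forbidding E0L grammars.
-/

namespace Q231.LS

/-- An ET0L grammar with terminal alphabet `A`; the total alphabet is `N ⊕ A`. -/
structure ET0L (A : Type) where
  /-- nonterminal alphabet -/
  N : Type
  finN : Finite N
  /-- number of tables -/
  n : ℕ
  n_pos : 1 ≤ n
  /-- `table h X` is the finite set of right-hand sides of `X` in the table `h` -/
  table : Fin n → (N ⊕ A) → Finset (List (N ⊕ A))
  complete : ∀ h X, (table h X).Nonempty
  /-- the axiom -/
  ax : List (N ⊕ A)
  ax_ne : ax ≠ []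

namespace ET0L

variable {A : Type} (G : ET0L A)

/-- One derivation step: all symbols are rewritten in parallel by rules of one table. -/
def Step (u v : List (G.N ⊕ A)) : Prop :=
  u ≠ [] ∧ ∃ (h : Fin G.n) (ys : List (List (G.N ⊕ A))),
    List.Forall₂ (fun X y => y ∈ G.table h X) u ys ∧ v = ys.flatten

/-- The generated language. -/
def Lang : Set (List A) :=
  {x | Relation.ReflTransGen G.Step G.ax (x.map Sum.inr)}

end ET0L

/-- A left forbidding E0L grammar with terminal alphabet `A`; a rule `(X, y, W)` is
`X → y` with the left forbidding context `W` (a set of nonterminals). -/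
structure LFE0L (A : Type) where
  /-- nonterminal alphabet -/
  N : Type
  finN : Finite N
  /-- the rules -/
  rules : Finset ((N ⊕ A) × List (N ⊕ A) × Finset N)
  /-- the axiom -/
  ax : List (N ⊕ A)
  ax_ne : ax ≠ []

namespace LFE0L

variable {A : Type} (G : LFE0L A)

/-- One derivation step: all symbols are rewritten in parallel, the `i`-th symbol by a rule
none of whose forbidden symbols occurs to the left of it. -/
def Step (u v : List (G.N ⊕ A)) : Prop :=
  u ≠ [] ∧ ∃ ys : List (List (G.N ⊕ A)), ys.length = u.length ∧ v = ys.flatten ∧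
    ∀ (i : ℕ) (hi : i < u.length) (hi' : i < ys.length),
      ∃ W : Finset G.N, (u[i], ys[i], W) ∈ G.rules ∧ ∀ B ∈ W, Sum.inl B ∉ u.take i

/-- The generated language. -/
def Lang : Set (List A) :=
  {x | Relation.ReflTransGen G.Step G.ax (x.map Sum.inr)}

/-- No rule is erasing (LF-EP0L grammars). -/
def Propagating : Prop := ∀ r ∈ G.rules, r.2.1 ≠ []

end LFE0L

end Q231.LS
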