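import Pool.Agent.Q231.LS.Gram

namespace Q231.LS

open List
open NT

/-- tower of twos -/
def T : ℕ → ℕ
  | 0 => 2
  | j + 1 => 2 ^ T j - 1

theorem T_succ_add (j : ℕ) : T (j + 1) + 1 = 2 ^ T j := by
  have : 0 < 2 ^ T j := by positivity
  simp only [T]
  omega

theorem T_mono_succ (j : ℕ) : T j ≤ T (j + 1) := by
  have h1 := T_succ_add j
  have h2 : T j < 2 ^ T j := Nat.lt_two_pow_self
  omega

theorem T_mono : Monotone T := monotone_nat_of_le_succ T_mono_succ

theorem T_ge (j : ℕ) : 2 ^ j + 1 ≤ T j := by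
  induction j with
  | zero => simp [T]
  | succ j ih =>
    have h1 := T_succ_add j
    have h2 : 2 ^ (2 ^ j + 1) ≤ 2 ^ T j := Nat.pow_le_pow_right (by norm_num) ih
    have h3 : j < 2 ^ j := Nat.lt_two_pow_self
    have h4 : 2 ^ (j + 2) ≤ 2 ^ (2 ^ j + 1) := Nat.pow_le_pow_right (by norm_num) (by omega)
    have h5 : 2 ^ (j + 2) = 2 ^ (j + 1) + 2 ^ (j + 1) := by ring
    have h6 : 2 ≤ 2 ^ (j + 1) := by
      calc 2 = 2 ^ 1 := by norm_num
        _ ≤ 2 ^ (j + 1) := Nat.pow_le_pow_right (by norm_num) (by omega)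
    omega

theorem T_super (C H : ℕ) : ∃ k, C * H ^ k < T (k - 1) := by
  -- choose m + 1 = C + 1 + 2 H + 1, j = 2 m, k = j + 2
  set m := C + 2 * H with hm
  have hj : C + H * (2 * m + 2) + 1 ≤ 2 ^ (2 * m) := by
    have h1 : m + 1 ≤ 2 ^ m := Nat.lt_two_pow_self
    have h2 : (m + 1) * (m + 1) ≤ 2 ^ m * 2 ^ m := Nat.mul_le_mul h1 h1
    have h3 : 2 ^ (2 * m) = 2 ^ m * 2 ^ m := by rw [two_mul, pow_add]
    have h4 : C + H * (2 * m + 2) + 1 ≤ (m + 1) * (m + 1) := by
      rw [hm]; nlinarith [Nat.zero_le C, Nat.zero_le H, Nat.zero_le (C * H), Nat.zero_le (C * C)]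
    omega
  refine ⟨2 * m + 2, ?_⟩
  rw [show 2 * m + 2 - 1 = 2 * m + 1 from rfl]
  have h1 := T_succ_add (2 * m)
  have h2 := T_ge (2 * m)
  have h3 : 2 ^ (C + H * (2 * m + 2) + 2) ≤ 2 ^ T (2 * m) :=
    Nat.pow_le_pow_right (by norm_num) (by omega)
  have h4 : C * H ^ (2 * m + 2) ≤ 2 ^ (C + H * (2 * m + 2)) := by
    rw [pow_add 2 C, pow_mul 2 H]
    exact Nat.mul_le_mul (Nat.lt_two_pow_self).le (Nat.pow_le_pow_left (Nat.lt_two_pow_self).le _)
  have h5 : 2 ^ (C + H * (2 * m + 2) + 2) = 4 * 2 ^ (C + H * (2 * m + 2)) := by ring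
  have h6 : 0 < 2 ^ (C + H * (2 * m + 2)) := by positivity
  omega

/-- invariant -/
def Inv (x : List V) : Prop :=
  (∃ (X : NT) (j : ℕ) (w : List V), (X = A ∨ X = B) ∧ x = n' X :: (replicate j (n' M) ++ w) ∧
    YD w ∧ 2 ^ T j ≤ 2 ^ cn Y w * (cn D w + 1)) ∨
  (∃ j p : ℕ, T j ≤ p ∧ x = n' F :: (replicate j (n' M) ++ replicate p (n' Y))) ∨
  (∃ j p : ℕ, T j ≤ p ∧ x = Sum.inr AB.a :: (replicate j (Sum.inr AB.a) ++
    replicate p (Sum.inr AB.b)))

theorem cn_rep (p : ℕ) : cn Y (replicate p (n' Y)) = p ∧ cn D (replicate p (n' Y)) = 0 := by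
  induction p with
  | zero => simp [cn_nil]
  | succ p ih => rw [List.replicate_succ, cYY, cDY, ih.1, ih.2]; exact ⟨rfl, rfl⟩

theorem yd_rep (p : ℕ) : YD (replicate p (n' Y)) := by
  intro s hs
  left
  exact List.eq_of_mem_replicate hs

theorem flat_rep (j : ℕ) (s : V) : (replicate j [s]).flatten = replicate j s := by
  induction j with
  | zero => rfl
  | succ j ih => rw [List.replicate_succ, List.flatten_cons, ih, List.replicate_succ]; rfl

theorem inv_step {x y : List V} (hx : Inv x) (h : gram.Step x y) : Inv y := by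
  rw [step_iff] at h
  obtain ⟨-, h⟩ := h
  rcases hx with ⟨X, j, w, hX, rfl, hw, hI⟩ | ⟨j, p, hp, rfl⟩ | ⟨j, p, hp, rfl⟩
  · obtain ⟨z, v', rfl, h1, h2⟩ := h
    obtain ⟨v1, v2, rfl, h3, h4⟩ := ls_append.1 h2
    rcases hX with rfl | rfl
    · have hv1 : v1 = replicate j (n' M) := by
        rw [ls_M (X := A) (y := [n' M]) (fun l z hl hr => (rule_M hr).1 hl) j (by simp) h3,
          flat_rep]
      obtain ⟨g1, g2⟩ := ls_A hw (by simp) h4
      have hI' : 2 ^ T j ≤ 2 ^ cn Y v2 * (cn D v2 + 1) := by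
        rcases g2 with ⟨g2, g3⟩ | ⟨g2, g3⟩
        · rw [g2, g3]
          refine hI.trans (Nat.mul_le_mul_left _ (by omega))
        · rw [g3]
          rw [← g2, pow_succ] at hI
          refine hI.trans (le_of_eq (by ring))
      rcases rule_A h1 with rfl | rfl
      · exact Or.inl ⟨A, j, v2, Or.inl rfl, by rw [hv1]; rfl, g1, hI'⟩
      · exact Or.inl ⟨B, j, v2, Or.inr rfl, by rw [hv1]; rfl, g1, hI'⟩
    · have hv1 : v1 = replicate j (n' M) := by
        rw [ls_M (X := B) (y := [n' M]) (fun l z hl hr => (rule_M hr).2.1 hl) j (by simp) h3,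
          flat_rep]
      obtain ⟨g1, g2⟩ := ls_B hw (by simp) h4
      rw [g1, pow_zero, one_mul] at hI
      have hD : T (j + 1) ≤ cn D w := by
        have := T_succ_add j
        omega
      rcases rule_B h1 with rfl | rfl
      · refine Or.inl ⟨A, j + 1, v2, Or.inl rfl, ?_, ?_, ?_⟩
        · rw [hv1]; rfl
        · rw [g2]; exact yd_rep _
        · rw [g2, (cn_rep _).1, (cn_rep _).2, zero_add, mul_one]
          exact Nat.pow_le_pow_right (by norm_num) hD
      · refine Or.inr (Or.inl ⟨j + 1, cn D w, hD, ?_⟩)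
        rw [hv1, g2]; rfl
  · obtain ⟨z, v', rfl, h1, h2⟩ := h
    obtain ⟨v1, v2, rfl, h3, h4⟩ := ls_append.1 h2
    have hv1 : v1 = replicate j (Sum.inr AB.a) := by
      rw [ls_M (X := F) (y := [Sum.inr AB.a]) (fun l z hl hr => (rule_M hr).2.2 hl) j (by simp) h3,
        flat_rep]
    have hv2 := ls_F p (by simp) h4
    rw [rule_F h1, hv1, hv2]
    exact Or.inr (Or.inr ⟨j, p, hp, rfl⟩)
  · obtain ⟨z, v', rfl, h1, h2⟩ := h
    exact (rule_t h1).elim

theorem inv_reach {y : List V} (h : Relation.ReflTransGen gram.Step gram.ax y) : Inv y := by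
  induction h with
  | refl =>
    refine Or.inl ⟨A, 0, [n' Y, n' Y], Or.inl rfl, rfl, yd_rep 2, ?_⟩
    have h := cn_rep 2
    rw [show ([n' Y, n' Y] : List V) = replicate 2 (n' Y) from rfl, h.1, h.2]
    simp [T]
  | tail _ h2 ih => exact inv_step ih h2

theorem lang_form {x : List AB} (hx : x ∈ gram.Lang) :
    ∃ j p, T j ≤ p ∧ x = AB.a :: (replicate j AB.a ++ replicate p AB.b) := by
  have h := inv_reach hx
  rcases h with ⟨X, j, w, hX, h, -⟩ | ⟨j, p, hp, h⟩ | ⟨j, p, hp, h⟩
  · cases x with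
    | nil => simp at h
    | cons c x => simp [n'] at h
  · cases x with
    | nil => simp at h
    | cons c x => simp [n'] at h
  · refine ⟨j, p, hp, ?_⟩
    have h2 : List.map (Sum.inr : AB → V) x =
        List.map (Sum.inr : AB → V) (AB.a :: (replicate j AB.a ++ replicate p AB.b)) := by
      rw [h]; simp
    exact List.map_injective_iff.2 Sum.inr_injective h2

/-! ### The other direction -/

theorem ls_rep {s : V} {y : List V} {W : Finset NT} (hr : (s, y, W) ∈ gram.rules)
    (hs : ∀ Z ∈ W, n' Z ≠ s) (n : ℕ) : ∀ (left : List V), (∀ Z ∈ W, n' Z ∉ left) →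
    LS left (replicate n s) (replicate n y).flatten := by
  induction n with
  | zero => intro left _; rfl
  | succ n ih =>
    intro left hl
    rw [List.replicate_succ, List.replicate_succ, List.flatten_cons]
    refine ⟨y, _, rfl, ⟨W, hr, hl⟩, ih _ ?_⟩
    intro Z hZ hm
    rcases List.mem_append.1 hm with hm | hm
    · exact hl Z hZ hm
    · exact hs Z hZ (by simpa using hm)

theorem memr {s : V} {y : List V} {W : Finset NT} (h : (s, y, W) ∈ rulesL) :
    (s, y, W) ∈ gram.rules := (mem_rules _ _ _).2 h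

theorem flat_rep2 (c : ℕ) : (replicate c [n' D, n' D]).flatten = replicate (2 * c) (n' D) := by
  induction c with
  | zero => rfl
  | succ c ih =>
    rw [List.replicate_succ, List.flatten_cons, ih, show 2 * (c + 1) = (2 * c + 1) + 1 from rfl,
      List.replicate_succ, List.replicate_succ]
    rfl

theorem stepA (X : NT) (hX : X = A ∨ X = B) (j c q : ℕ) :
    gram.Step (n' A :: (replicate j (n' M) ++ (replicate c (n' D) ++ replicate (q + 1) (n' Y))))
      (n' X :: (replicate j (n' M) ++ (replicate (2 * c + 1) (n' D) ++ replicate q (n' Y)))) := by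
  rw [step_iff]
  refine ⟨List.cons_ne_nil _ _, [n' X], _, rfl, ?_, ?_⟩
  · rcases hX with rfl | rfl
    · exact ⟨∅, memr (by simp [rulesL]), by simp⟩
    · exact ⟨∅, memr (by simp [rulesL]), by simp⟩
  · rw [ls_append]
    refine ⟨_, _, rfl, ?_, ?_⟩
    · have := ls_rep (s := n' M) (y := [n' M]) (W := {B, F}) (memr (by simp [rulesL])) (by simp) j
        ([] ++ [n' A]) (by simp)
      rwa [flat_rep] at this
    · rw [ls_append]
      refine ⟨replicate (2 * c) (n' D), n' D :: replicate q (n' Y), ?_, ?_, ?_⟩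
      · rw [List.replicate_succ']; simp
      · have := ls_rep (s := n' D) (y := [n' D, n' D]) (W := {B, F}) (memr (by simp [rulesL]))
          (by simp) c ([] ++ [n' A] ++ replicate j (n' M)) (by simp)
        rwa [flat_rep2] at this
      · rw [List.replicate_succ]
        refine ⟨[n' D], _, rfl, ⟨{B, F, Y}, memr (by simp [rulesL]), by simp⟩, ?_⟩
        have := ls_rep (s := n' Y) (y := [n' Y]) (W := {B, F}) (memr (by simp [rulesL]))
          (by simp) q ([] ++ [n' A] ++ replicate j (n' M) ++ replicate c (n' D) ++ [n' Y])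
          (by simp)
        rwa [flat_rep] at this

theorem stepB (X : NT) (hX : X = A ∨ X = F) (j c : ℕ) :
    gram.Step (n' B :: (replicate j (n' M) ++ replicate c (n' D)))
      (n' X :: (replicate (j + 1) (n' M) ++ replicate c (n' Y))) := by
  rw [step_iff]
  refine ⟨List.cons_ne_nil _ _, [n' X, n' M], replicate j (n' M) ++ replicate c (n' Y), rfl,
    ?_, ?_⟩
  · rcases hX with rfl | rfl
    · exact ⟨∅, memr (by simp [rulesL]), by simp⟩
    · exact ⟨∅, memr (by simp [rulesL]), by simp⟩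
  · rw [ls_append]
    refine ⟨_, _, rfl, ?_, ?_⟩
    · have := ls_rep (s := n' M) (y := [n' M]) (W := {A, F}) (memr (by simp [rulesL])) (by simp) j
        ([] ++ [n' B]) (by simp)
      rwa [flat_rep] at this
    · have := ls_rep (s := n' D) (y := [n' Y]) (W := {A, F}) (memr (by simp [rulesL]))
        (by simp) c ([] ++ [n' B] ++ replicate j (n' M)) (by simp)
      rwa [flat_rep] at this

theorem stepF (j p : ℕ) :
    gram.Step (n' F :: (replicate j (n' M) ++ replicate p (n' Y)))
      (Sum.inr AB.a :: (replicate j (Sum.inr AB.a) ++ replicate p (Sum.inr AB.b))) := by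
  rw [step_iff]
  refine ⟨List.cons_ne_nil _ _, [Sum.inr AB.a], _, rfl,
    ⟨∅, memr (by simp [rulesL]), by simp⟩, ?_⟩
  rw [ls_append]
  refine ⟨_, _, rfl, ?_, ?_⟩
  · have := ls_rep (s := n' M) (y := [Sum.inr AB.a]) (W := {A, B}) (memr (by simp [rulesL]))
      (by simp) j ([] ++ [n' F]) (by simp)
    rwa [flat_rep] at this
  · have := ls_rep (s := n' Y) (y := [Sum.inr AB.b]) (W := {A, B}) (memr (by simp [rulesL]))
      (by simp) p ([] ++ [n' F] ++ replicate j (n' M)) (by simp)
    rwa [flat_rep] at this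

theorem reach_D (j : ℕ) (q : ℕ) : ∀ c : ℕ,
    Relation.ReflTransGen gram.Step
      (n' A :: (replicate j (n' M) ++ (replicate c (n' D) ++ replicate (q + 1) (n' Y))))
      (n' B :: (replicate j (n' M) ++ replicate (2 ^ (q + 1) * (c + 1) - 1) (n' D))) := by
  induction q with
  | zero =>
    intro c
    have h := stepA B (Or.inr rfl) j c 0
    rw [List.replicate_zero, List.append_nil] at h
    rw [show 2 ^ (0 + 1) * (c + 1) - 1 = 2 * c + 1 by omega]
    exact Relation.ReflTransGen.single h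
  | succ q ih =>
    intro c
    refine (Relation.ReflTransGen.single (stepA A (Or.inl rfl) j c (q + 1))).trans ?_
    have h := ih (2 * c + 1)
    rwa [show 2 ^ (q + 1) * (2 * c + 1 + 1) - 1 = 2 ^ (q + 1 + 1) * (c + 1) - 1 by
      congr 1; ring] at h

theorem reach_next (j p : ℕ) (hp : 1 ≤ p) (X : NT) (hX : X = A ∨ X = F) :
    Relation.ReflTransGen gram.Step
      (n' A :: (replicate j (n' M) ++ replicate p (n' Y)))
      (n' X :: (replicate (j + 1) (n' M) ++ replicate (2 ^ p - 1) (n' Y))) := by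
  obtain ⟨q, rfl⟩ : ∃ q, p = q + 1 := ⟨p - 1, by omega⟩
  have h := reach_D j q 0
  rw [List.replicate_zero, List.nil_append] at h
  rw [show 2 ^ (q + 1) * (0 + 1) - 1 = 2 ^ (q + 1) - 1 by simp] at h
  exact h.tail (stepB X hX j _)

theorem T_pos (j : ℕ) : 1 ≤ T j := by
  have := T_ge j
  have h2 : 0 < 2 ^ j := by positivity
  omega

theorem reach_A (j : ℕ) : Relation.ReflTransGen gram.Step gram.ax
    (n' A :: (replicate j (n' M) ++ replicate (T j) (n' Y))) := by
  induction j with
  | zero => exact Relation.ReflTransGen.refl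
  | succ j ih => exact ih.trans (reach_next j (T j) (T_pos j) A (Or.inl rfl))

theorem lang_mem (j : ℕ) :
    (AB.a :: (replicate (j + 1) AB.a ++ replicate (T (j + 1)) AB.b)) ∈ gram.Lang := by
  have h1 := (reach_A j).trans (reach_next j (T j) (T_pos j) F (Or.inr rfl))
  have h2 := h1.tail (stepF (j + 1) (2 ^ T j - 1))
  show Relation.ReflTransGen gram.Step gram.ax _
  have h3 : List.map (Sum.inr : AB → V)
      (AB.a :: (replicate (j + 1) AB.a ++ replicate (T (j + 1)) AB.b)) =
      (Sum.inr AB.a :: (replicate (j + 1) (Sum.inr AB.a) ++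
        replicate (2 ^ T j - 1) (Sum.inr AB.b))) := by
    simp [T]
  rw [h3]
  exact h2

theorem count_form (j p : ℕ) :
    (AB.a :: (replicate j AB.a ++ replicate p AB.b)).count AB.a = j + 1 := by
  simp [List.count_replicate]

theorem main {A' : Type} [Finite A'] (f : AB → A') (hf : Function.Injective f) (H : ET0L A') :
    H.Lang ≠ (List.map f) '' gram.Lang := by
  classical
  intro hL
  have hc : ∀ x : List AB, (x.map f).count (f AB.a) = x.count AB.a := fun x =>
    List.count_map_of_injective x f hf AB.a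
  refine not_et0l H (f AB.a) (fun m => T (m - 1)) ?_ T_super ?_ ?_
  · intro m n hmn
    exact T_mono (by omega)
  · intro k
    refine ⟨_, by rw [hL]; exact ⟨_, lang_mem k, rfl⟩, ?_⟩
    rw [hc, count_form]
    omega
  · intro x hx
    rw [hL] at hx
    obtain ⟨y, hy, rfl⟩ := hx
    obtain ⟨j, p, hp, rfl⟩ := lang_form hy
    rw [hc, count_form]
    simp only [Nat.add_sub_cancel, List.length_map, List.length_cons, List.length_append,
      List.length_replicate]
    omega

end Q231.LS
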