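import Pool.Agent.Q231.LS.Pump

namespace Q231.LS

open List Classical

variable {V ι : Type} {tb : ι → V → Finset (List V)} {tm mk : V → Prop}

/-- number of marked letters -/
noncomputable def cnt (mk : V → Prop) (g : List V) : ℕ := g.countP (fun x => decide (mk x))

theorem cnt_append (g g' : List V) : cnt mk (g ++ g') = cnt mk g + cnt mk g' :=
  List.countP_append

theorem cnt_pos {g : List V} : 0 < cnt mk g ↔ ∃ x ∈ g, mk x := by
  unfold cnt
  rw [List.countP_pos_iff]
  simp

theorem cnt_le (g : List V) : cnt mk g ≤ g.length := List.countP_le_length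

/-- some symbol yields many marked letters -/
theorem exists_part {τ : List ι} {B : ℕ} (hB : 0 < B) :
    ∀ {y g : List V}, Der tb τ y g → y.length * (B - 1) < cnt mk g →
    ∃ y1 c y2 g1 g' g2, y = y1 ++ c :: y2 ∧ g = g1 ++ (g' ++ g2) ∧ Der tb τ y1 g1 ∧
      Der tb τ [c] g' ∧ Der tb τ y2 g2 ∧ B ≤ cnt mk g' := by
  intro y
  induction y with
  | nil =>
    intro g h hc
    rw [der_nil.1 h] at hc
    simp [cnt] at hc
  | cons c y ih =>
    intro g h hc
    obtain ⟨g1, g2, rfl, h1, h2⟩ := der_cons.1 h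
    by_cases hg : B ≤ cnt mk g1
    · exact ⟨[], c, y, [], g1, g2, rfl, rfl, der_nil.2 rfl, h1, h2, hg⟩
    · rw [cnt_append] at hc
      simp only [List.length_cons] at hc
      have : y.length * (B - 1) < cnt mk g2 := by
        have e : (y.length + 1) * (B - 1) = y.length * (B - 1) + (B - 1) := by ring
        omega
      obtain ⟨y1, c', y2, k1, k', k2, e1, e2, d1, d2, d3, d4⟩ := ih h2 this
      refine ⟨c :: y1, c', y2, g1 ++ k1, k', k2, by rw [e1]; rfl, by rw [e2]; simp, ?_, d2, d3, d4⟩
      exact der_cons.2 ⟨_, _, rfl, h1, d1⟩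

theorem chain (r : ℕ) (hr : 2 ≤ r) (hlen : ∀ h X, ∀ y ∈ tb h X, y.length ≤ r) :
    ∀ (τ : List ι) (c : V) (g : List V) (J : ℕ), Der tb τ [c] g → (∀ x ∈ g, tm x) →
    r ^ J ≤ cnt mk g →
    ∃ f : ℕ → List ι × V, R1 tb tm mk (τ, c) (f 0) ∧ ∀ i < J, R2 tb tm mk (f i) (f (i + 1)) := by
  intro τ
  induction τ with
  | nil =>
    intro c g J hd ht hJ
    have hal : c ∈ Al tb tm mk ([] : List ι) :=
      ⟨g, hd, ht, cnt_pos.1 (lt_of_lt_of_le (by positivity) hJ)⟩
    have hJ0 : J = 0 := by
      by_contra hne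
      simp only [Der] at hd
      subst hd
      have h1 := cnt_le (mk := mk) [c]
      have h2 : r ^ 1 ≤ r ^ J := Nat.pow_le_pow_right (by omega) (by omega)
      simp only [List.length_cons, List.length_nil, pow_one] at h1 h2
      omega
    subst hJ0
    exact ⟨fun _ => ([], c), R1.refl hal, by intro i hi; omega⟩
  | cons h τ ih =>
    intro c g J hd ht hJ
    have hal : c ∈ Al tb tm mk (h :: τ) :=
      ⟨g, hd, ht, cnt_pos.1 (lt_of_lt_of_le (by positivity) hJ)⟩
    cases J with
    | zero => exact ⟨fun _ => (h :: τ, c), R1.refl hal, by intro i hi; omega⟩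
    | succ j =>
      obtain ⟨y, hy, hg⟩ := hd
      have hyt := stepT_single.1 hy
      have hyr := hlen h c y hyt
      have hBp : 0 < r ^ j := by positivity
      have hlt : y.length * (r ^ j - 1) < cnt mk g := by
        have e1 : y.length * (r ^ j - 1) ≤ r * (r ^ j - 1) := Nat.mul_le_mul_right _ hyr
        have e2 : r * (r ^ j - 1) < r ^ (j + 1) := by
          rw [pow_succ, mul_comm (r ^ j) r]
          exact Nat.mul_lt_mul_of_pos_left (by omega) (by omega)
        omega
      obtain ⟨y1, c', y2, g1, g', g2, e1, e2, d1, d2, d3, d4⟩ := exists_part hBp hg hlt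
      subst e1 e2
      have t1 : ∀ x ∈ g1, tm x := fun x hx => ht x (by simp [hx])
      have t' : ∀ x ∈ g', tm x := fun x hx => ht x (by simp [hx])
      have t2 : ∀ x ∈ g2, tm x := fun x hx => ht x (by simp [hx])
      obtain ⟨a1, a2⟩ := split_gd (mk := mk) d1 t1
      obtain ⟨b1, b2⟩ := split_gd (mk := mk) d3 t2
      have hgood : ∀ s ∈ y1 ++ y2, s ∈ Gd tb tm τ := by
        intro s hs
        rcases List.mem_append.1 hs with hs | hs
        · exact a1 s hs
        · exact b1 s hs
      have hc'al : c' ∈ Al tb tm mk τ :=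
        ⟨g', d2, t', cnt_pos.1 (lt_of_lt_of_le hBp d4)⟩
      have hder : Der tb [h] [c] (y1 ++ c' :: y2) := ⟨_, hy, rfl⟩
      by_cases hz : cnt mk g1 + cnt mk g2 = 0
      · have hcc : r ^ (j + 1) ≤ cnt mk g' := by
          rw [cnt_append, cnt_append] at hJ
          omega
        obtain ⟨f, f1, f2⟩ := ih c' g' (j + 1) d2 t' hcc
        refine ⟨f, R1.trans ⟨[h], y1, y2, rfl, hder, hgood, hc'al⟩ f1, f2⟩
      · obtain ⟨f, f1, f2⟩ := ih c' g' j d2 t' d4
        have hother : ∃ s ∈ y1 ++ y2, s ∈ Al tb tm mk τ := by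
          by_cases hz1 : 0 < cnt mk g1
          · obtain ⟨s, hs, hs'⟩ := a2 (cnt_pos.1 hz1)
            exact ⟨s, by simp [hs], hs'⟩
          · obtain ⟨s, hs, hs'⟩ := b2 (cnt_pos.1 (by omega))
            exact ⟨s, by simp [hs], hs'⟩
        refine ⟨fun i => match i with
          | 0 => (h :: τ, c)
          | i + 1 => f i, R1.refl hal, ?_⟩
        intro i hi
        cases i with
        | zero =>
          exact R2.trans_R1 (q := (τ, c'))
            ⟨[h], y1, y2, rfl, hder, hgood, hc'al, hother⟩ f1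
        | succ i => exact f2 i (by omega)

/-- the pumping situation -/
theorem exists_repeat [Finite V] (r : ℕ) (hr : 2 ≤ r)
    (hlen : ∀ h X, ∀ y ∈ tb h X, y.length ≤ r) :
    ∃ J : ℕ, ∀ (τ : List ι) (c : V) (g : List V), Der tb τ [c] g → (∀ x ∈ g, tm x) →
    r ^ J ≤ cnt mk g →
    ∃ p q : List ι × V, R1 tb tm mk (τ, c) p ∧ R2 tb tm mk p q ∧ p.2 = q.2 ∧
      Gd tb tm p.1 = Gd tb tm q.1 ∧ Al tb tm mk p.1 = Al tb tm mk q.1 := by
  haveI := Fintype.ofFinite V
  refine ⟨Fintype.card (Set V × Set V × V), fun τ c g hd ht hJ => ?_⟩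
  set J := Fintype.card (Set V × Set V × V)
  obtain ⟨f, f1, f2⟩ := chain (tm := tm) r hr hlen τ c g J hd ht hJ
  have hreach : ∀ i ≤ J, R1 tb tm mk (τ, c) (f i) := by
    intro i
    induction i with
    | zero => intro _; exact f1
    | succ i ih => intro hi; exact (ih (by omega)).trans (f2 i (by omega)).toR1
  have hR2 : ∀ i j, i < j → j ≤ J → R2 tb tm mk (f i) (f j) := by
    intro i j hij
    induction j with
    | zero => omega
    | succ j ih =>
      intro hj
      rcases Nat.lt_succ_iff_lt_or_eq.1 hij with h | h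
      · exact (ih h (by omega)).trans_R1 (f2 j (by omega)).toR1
      · subst h; exact f2 i (by omega)
  obtain ⟨i, j, hne, heq⟩ := Fintype.exists_ne_map_eq_of_card_lt
    (fun i : Fin (J + 1) => (Gd tb tm (f i).1, Al tb tm mk (f i).1, (f i).2)) (by simp [J])
  simp only [Prod.mk.injEq] at heq
  obtain ⟨e1, e2, e3⟩ := heq
  rcases lt_or_gt_of_ne hne with h | h
  · exact ⟨f i, f j, hreach _ (by omega), hR2 _ _ h (by omega), e3, e1, e2⟩
  · exact ⟨f j, f i, hreach _ (by omega), hR2 _ _ h (by omega), e3.symm, e1.symm, e2.symm⟩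

theorem flatMap_len {W : Type} (h : V → List W) (H : ℕ) (hH : ∀ s, (h s).length ≤ H) (u : List V) :
    (u.flatMap h).length ≤ H * u.length := by
  induction u with
  | nil => simp
  | cons c u ih =>
    rw [List.flatMap_cons, List.length_append, List.length_cons]
    have := hH c
    have e : H * (u.length + 1) = H * u.length + H := by ring
    omega

/-- Pumping: if some terminal word with many marked letters is derivable from `w₀`, then there
are terminal words with arbitrarily many marked letters and only exponential length. -/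
theorem pump [Finite V] (r : ℕ) (hr : 2 ≤ r) (hlen : ∀ h X, ∀ y ∈ tb h X, y.length ≤ r)
    (w0 : List V)
    (hunb : ∀ k, ∃ τ x, Der tb τ w0 x ∧ (∀ s ∈ x, tm s) ∧ k ≤ cnt mk x) :
    ∃ C H : ℕ, ∀ k, ∃ τ x, Der tb τ w0 x ∧ (∀ s ∈ x, tm s) ∧ k < cnt mk x ∧
      x.length ≤ C * H ^ k := by
  haveI := Fintype.ofFinite V
  obtain ⟨J, hJ⟩ := exists_repeat (tb := tb) (tm := tm) (mk := mk) r hr hlen
  obtain ⟨τ, x, hd, ht, hc⟩ := hunb (w0.length * r ^ J + 1)
  have hBp : 0 < r ^ J := by positivity
  have hlt : w0.length * (r ^ J - 1) < cnt mk x := by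
    have : w0.length * (r ^ J - 1) ≤ w0.length * r ^ J := Nat.mul_le_mul_left _ (by omega)
    omega
  obtain ⟨y1, c, y2, g1, g', g2, e1, e2, d1, d2, d3, d4⟩ := exists_part hBp hd hlt
  subst e2
  obtain ⟨p, q, hp, hpq, e3, e4, e5⟩ := hJ τ c g' d2 (fun x hx => ht x (by simp [hx])) d4
  obtain ⟨σ, z1, z2, h1, h2, h3, h4⟩ := hp
  obtain ⟨σ', u1, u2, k1, k2, k3, k4, k5⟩ := hpq
  simp only at h1 h2
  subst h1
  obtain ⟨a1, -⟩ := split_gd (mk := mk) d1 (fun x hx => ht x (by simp [hx]))
  obtain ⟨b1, -⟩ := split_gd (mk := mk) d3 (fun x hx => ht x (by simp [hx]))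
  obtain ⟨v1, m1, m2, -⟩ := extend_word (mk := mk) a1
  obtain ⟨v2, n1, n2, -⟩ := extend_word (mk := mk) b1
  -- the word at time `s`
  set ws := v1 ++ ((z1 ++ p.2 :: z2) ++ v2) with hws
  have hws1 : Der tb σ w0 ws := by
    rw [e1]
    exact der_append.2 ⟨_, _, rfl, m1, der_cons.2 ⟨_, _, rfl, h2, n1⟩⟩
  have hws2 : ∀ s ∈ ws, s ∈ Gd tb tm p.1 := by
    intro s hs
    simp only [hws, List.mem_append, List.mem_cons] at hs
    rcases hs with hs | (hs | hs | hs) | hs
    · exact m2 s hs
    · exact h3 s (by simp [hs])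
    · rw [hs]; exact al_sub h4
    · exact h3 s (by simp [hs])
    · exact n2 s hs
  set G := Gd tb tm q.1 with hG
  set A := Al tb tm mk q.1 with hA
  -- the homomorphism
  have hex : ∀ s : V, ∃ y : List V, s ∈ G → (Der tb σ' [s] y ∧ (∀ t ∈ y, t ∈ G) ∧
      (s ∈ A → ∃ t ∈ y, t ∈ A) ∧
      (s = p.2 → ∃ y1 y2, y = y1 ++ p.2 :: y2 ∧ (∀ t ∈ y1 ++ y2, t ∈ G) ∧ ∃ t ∈ y1 ++ y2, t ∈ A)) := by
    intro s
    by_cases hs : s = p.2
    · subst hs
      refine ⟨u1 ++ q.2 :: u2, fun _ => ⟨k2, ?_, ?_, ?_⟩⟩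
      · intro t ht
        simp only [List.mem_append, List.mem_cons] at ht
        rcases ht with ht | ht | ht
        · exact k3 t (by simp [ht])
        · rw [ht]; exact al_sub k4
        · exact k3 t (by simp [ht])
      · intro _
        exact ⟨q.2, by simp, k4⟩
      · intro _
        rw [← e3]
        exact ⟨u1, u2, rfl, k3, k5⟩
    · by_cases hsG : s ∈ G
      · have hsG' : s ∈ Gd tb tm (σ' ++ q.1) := by rw [← k1, e4]; exact hsG
        obtain ⟨y, f1, f2, f3⟩ := extend_symbol (mk := mk) hsG'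
        refine ⟨y, fun _ => ⟨f1, f2, ?_, fun h => absurd h hs⟩⟩
        intro hsA
        apply f3
        rw [← k1, e5]
        exact hsA
      · exact ⟨[], fun h => absurd h hsG⟩
  choose h hh using hex
  have hex2 : ∀ s : V, ∃ y : List V, s ∈ G → (Der tb q.1 [s] y ∧ (∀ t ∈ y, tm t) ∧
      (s ∈ A → ∃ t ∈ y, mk t)) := by
    intro s
    by_cases hsA : s ∈ A
    · obtain ⟨g, f1, f2, f3⟩ := hsA
      exact ⟨g, fun _ => ⟨f1, f2, fun _ => f3⟩⟩
    · by_cases hsG : s ∈ G
      · obtain ⟨g, f1, f2⟩ := hsG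
        exact ⟨g, fun _ => ⟨f1, f2, fun h => absurd h hsA⟩⟩
      · exact ⟨[], fun h => absurd h hsG⟩
  choose g hg using hex2
  -- iteration
  let it : ℕ → List V → List V := fun k => (fun u => u.flatMap h)^[k]
  have it_append : ∀ k u u', it k (u ++ u') = it k u ++ it k u' := by
    intro k
    induction k with
    | zero => intro u u'; rfl
    | succ k ih =>
      intro u u'
      simp only [it, Function.iterate_succ, Function.comp] at ih ⊢
      rw [List.flatMap_append, ih]
  have it_good : ∀ k u, (∀ s ∈ u, s ∈ G) → (∀ s ∈ it k u, s ∈ G) ∧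
      Der tb (List.replicate k σ').flatten u (it k u) ∧
      ((∃ s ∈ u, s ∈ A) → ∃ s ∈ it k u, s ∈ A) := by
    intro k
    induction k with
    | zero => intro u hu; exact ⟨hu, rfl, fun h => h⟩
    | succ k ih =>
      intro u hu
      have hu' : ∀ s ∈ u.flatMap h, s ∈ G := by
        intro s hs
        obtain ⟨t, ht, hst⟩ := List.mem_flatMap.1 hs
        exact (hh t (hu t ht)).2.1 s hst
      obtain ⟨i1, i2, i3⟩ := ih _ hu'
      refine ⟨i1, ?_, ?_⟩
      · rw [List.replicate_succ, List.flatten_cons]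
        exact der_trans.2 ⟨_, der_flatMap fun s hs => (hh s (hu s hs)).1, i2⟩
      · rintro ⟨s, hs, hs'⟩
        apply i3
        obtain ⟨t, ht, ht'⟩ := (hh s (hu s hs)).2.2.1 hs'
        exact ⟨t, List.mem_flatMap.2 ⟨s, hs, ht⟩, ht'⟩
  have hpG : p.2 ∈ G := by rw [e3]; exact al_sub k4
  have hpA : p.2 ∈ A := by rw [e3]; exact k4
  have it_cnt : ∀ k, k < (it k [p.2]).countP (fun s => decide (s ∈ A)) := by
    intro k
    induction k with
    | zero =>
      change 0 < [p.2].countP _
      rw [List.countP_pos_iff]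
      exact ⟨p.2, by simp, by simpa using hpA⟩
    | succ k ih =>
      obtain ⟨x1, x2, f1, f2, f3⟩ := (hh p.2 hpG).2.2.2 rfl
      have e : it (k + 1) [p.2] = it k x1 ++ (it k [p.2] ++ it k x2) := by
        have : it (k + 1) [p.2] = it k ([p.2].flatMap h) := rfl
        rw [this, List.flatMap_singleton, f1, show p.2 :: x2 = [p.2] ++ x2 from rfl, it_append,
          it_append]
      rw [e, List.countP_append, List.countP_append]
      have hpos : 0 < (it k x1).countP (fun s => decide (s ∈ A)) +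
          (it k x2).countP (fun s => decide (s ∈ A)) := by
        obtain ⟨t, ht, htA⟩ := f3
        rcases List.mem_append.1 ht with ht | ht
        · have := (it_good k x1 fun s hs => f2 s (by simp [hs])).2.2 ⟨t, ht, htA⟩
          have h0 : 0 < (it k x1).countP (fun s => decide (s ∈ A)) := by
            rw [List.countP_pos_iff]
            obtain ⟨s, hs, hs'⟩ := this
            exact ⟨s, hs, by simpa using hs'⟩
          omega
        · have := (it_good k x2 fun s hs => f2 s (by simp [hs])).2.2 ⟨t, ht, htA⟩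
          have h0 : 0 < (it k x2).countP (fun s => decide (s ∈ A)) := by
            rw [List.countP_pos_iff]
            obtain ⟨s, hs, hs'⟩ := this
            exact ⟨s, hs, by simpa using hs'⟩
          omega
      omega
  -- bounds
  obtain ⟨H, hH⟩ : ∃ H, ∀ s, (h s).length ≤ H :=
    ⟨Finset.univ.sup fun s => (h s).length, fun s => Finset.le_sup (f := fun s => (h s).length)
      (Finset.mem_univ s)⟩
  obtain ⟨Gm, hGm⟩ : ∃ Gm, ∀ s, (g s).length ≤ Gm :=
    ⟨Finset.univ.sup fun s => (g s).length, fun s => Finset.le_sup (f := fun s => (g s).length)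
      (Finset.mem_univ s)⟩
  have it_len : ∀ k u, (it k u).length ≤ H ^ k * u.length := by
    intro k
    induction k with
    | zero => intro u; simp [it]
    | succ k ih =>
      intro u
      have e : it (k + 1) u = it k (u.flatMap h) := rfl
      rw [e]
      calc (it k (u.flatMap h)).length ≤ H ^ k * (u.flatMap h).length := ih _
        _ ≤ H ^ k * (H * u.length) := Nat.mul_le_mul_left _ (flatMap_len h H hH u)
        _ = H ^ (k + 1) * u.length := by ring
  refine ⟨Gm * ws.length, H, fun k => ?_⟩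
  have hwsG : ∀ s ∈ ws, s ∈ G := by
    intro s hs
    rw [← e4]
    exact hws2 s hs
  obtain ⟨i1, i2, -⟩ := it_good k ws hwsG
  refine ⟨σ ++ ((List.replicate k σ').flatten ++ q.1), (it k ws).flatMap g, ?_, ?_, ?_, ?_⟩
  · exact der_trans.2 ⟨ws, hws1, der_trans.2 ⟨_, i2, der_flatMap fun s hs => (hg s (i1 s hs)).1⟩⟩
  · intro s hs
    obtain ⟨t, ht, hst⟩ := List.mem_flatMap.1 hs
    exact (hg t (i1 t ht)).2.1 s hst
  · have hge : ∀ u : List V, (∀ s ∈ u, s ∈ G) →
        u.countP (fun s => decide (s ∈ A)) ≤ cnt mk (u.flatMap g) := by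
      intro u
      induction u with
      | nil => intro _; simp
      | cons c u ih =>
        intro hu
        rw [List.flatMap_cons, cnt_append, List.countP_cons]
        have i := ih fun s hs => hu s (by simp [hs])
        by_cases hcA : c ∈ A
        · have := cnt_pos.2 ((hg c (hu c (by simp))).2.2 hcA)
          simp only [hcA, decide_true, if_true]
          omega
        · simp only [hcA, decide_false]
          simp only [Bool.false_eq_true, if_false]
          omega
    refine lt_of_lt_of_le ?_ (hge _ i1)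
    have e : it k ws = it k v1 ++ ((it k z1 ++ (it k [p.2] ++ it k z2)) ++ it k v2) := by
      rw [hws, it_append, it_append, it_append, show p.2 :: z2 = [p.2] ++ z2 from rfl, it_append]
    rw [e]
    simp only [List.countP_append]
    have := it_cnt k
    omega
  · calc ((it k ws).flatMap g).length ≤ Gm * (it k ws).length := flatMap_len g Gm hGm _
      _ ≤ Gm * (H ^ k * ws.length) := Nat.mul_le_mul_left _ (it_len k ws)
      _ = Gm * ws.length * H ^ k := by ring

end Q231.LS
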