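import Pool.Agent.Q231.LS.Defs
import Pool.Agent.Q231.LS.Pump2

namespace Q231.LS

open List Classical

/-- pumping for ET0L languages -/
theorem et0l_pump {A : Type} [Finite A] (G : ET0L A) (a : A)
    (hunb : ∀ k, ∃ x ∈ G.Lang, k ≤ x.count a) :
    ∃ C H : ℕ, ∀ k, ∃ x ∈ G.Lang, k < x.count a ∧ x.length ≤ C * H ^ k := by
  haveI := G.finN
  haveI : Finite (G.N ⊕ A) := inferInstance
  haveI := Fintype.ofFinite (G.N ⊕ A)
  let tm : G.N ⊕ A → Prop := fun X => ∃ c, X = Sum.inr c
  let mk : G.N ⊕ A → Prop := fun X => X = Sum.inr a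
  -- bound of the right-hand sides
  obtain ⟨r, hr, hlen⟩ : ∃ r, 2 ≤ r ∧ ∀ h X, ∀ y ∈ G.table h X, y.length ≤ r := by
    refine ⟨max 2 (Finset.univ.sup fun p : Fin G.n × (G.N ⊕ A) =>
      (G.table p.1 p.2).sup List.length), le_max_left _ _, ?_⟩
    intro h X y hy
    refine le_trans ?_ (le_max_right _ _)
    refine le_trans (Finset.le_sup (f := List.length) hy) ?_
    exact Finset.le_sup (f := fun p : Fin G.n × (G.N ⊕ A) => (G.table p.1 p.2).sup List.length)
      (Finset.mem_univ (h, X))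
  have hcnt : ∀ x : List A, cnt mk (x.map Sum.inr) = x.count a := by
    intro x
    unfold cnt
    rw [List.countP_map, List.count]
    refine List.countP_congr ?_
    intro c _
    simp [mk]
  have hto : ∀ u v, Relation.ReflTransGen G.Step u v → ∃ τ, Der G.table τ u v := by
    intro u v h
    induction h using Relation.ReflTransGen.head_induction_on with
    | refl => exact ⟨[], rfl⟩
    | head h1 _ ih =>
      obtain ⟨τ, hτ⟩ := ih
      obtain ⟨-, h, ys, hys, hv⟩ := h1
      exact ⟨h :: τ, _, ⟨ys, hys, hv⟩, hτ⟩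
  have hfrom : ∀ τ u v, v ≠ [] → Der G.table τ u v → Relation.ReflTransGen G.Step u v := by
    intro τ
    induction τ with
    | nil =>
      intro u v _ h
      simp only [Der] at h
      subst h
      exact Relation.ReflTransGen.refl
    | cons h τ ih =>
      intro u v hv hd
      obtain ⟨w, ⟨ys, hys, hw⟩, hd'⟩ := hd
      have hune : u ≠ [] := by
        rintro rfl
        cases hys
        simp only [List.flatten_nil] at hw
        rw [hw, der_nil] at hd'
        exact hv hd'
      exact Relation.ReflTransGen.head ⟨hune, h, ys, hys, hw⟩ (ih _ _ hv hd')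
  have hterm : ∀ v : List (G.N ⊕ A), (∀ s ∈ v, tm s) → ∃ x : List A, v = x.map Sum.inr := by
    intro v
    induction v with
    | nil => intro _; exact ⟨[], rfl⟩
    | cons s v ih =>
      intro h
      obtain ⟨x, hx⟩ := ih fun t ht => h t (by simp [ht])
      obtain ⟨c, hc⟩ := h s (by simp)
      exact ⟨c :: x, by rw [hx, hc]; rfl⟩
  obtain ⟨C, H, hCH⟩ := pump (tb := G.table) (tm := tm) (mk := mk) r hr hlen G.ax (by
    intro k
    obtain ⟨x, hx, hk⟩ := hunb k
    obtain ⟨τ, hτ⟩ := hto _ _ hx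
    refine ⟨τ, _, hτ, ?_, by rw [hcnt]; exact hk⟩
    intro s hs
    obtain ⟨c, -, hc⟩ := List.mem_map.1 hs
    exact ⟨c, hc.symm⟩)
  refine ⟨C, H, fun k => ?_⟩
  obtain ⟨τ, v, hd, ht, hk, hl⟩ := hCH k
  obtain ⟨x, rfl⟩ := hterm v ht
  refine ⟨x, hfrom τ _ _ ?_ hd, by rw [← hcnt]; exact hk, by simpa using hl⟩
  intro h0
  rw [h0] at hk
  simp [cnt] at hk

/-- An ET0L language on which the number of `a`s is unbounded cannot have all lengths at least
a superexponential function of the number of `a`s. -/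
theorem not_et0l {A : Type} [Finite A] (G : ET0L A) (a : A) (T : ℕ → ℕ) (hmono : Monotone T)
    (hT : ∀ C H : ℕ, ∃ k, C * H ^ k < T k)
    (hunb : ∀ k, ∃ x ∈ G.Lang, k ≤ x.count a)
    (hlow : ∀ x ∈ G.Lang, T (x.count a) ≤ x.length) : False := by
  obtain ⟨C, H, hCH⟩ := et0l_pump G a hunb
  obtain ⟨k, hk⟩ := hT C H
  obtain ⟨x, hx, h1, h2⟩ := hCH k
  have h3 := hlow x hx
  have h4 := hmono h1.le
  omega

end Q231.LS
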