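import Pool.Agent.Q231.LS.Bridge

namespace Q231.LS

open List

/-- terminals -/
inductive AB
  | a
  | b
deriving DecidableEq

instance : Finite AB :=
  Finite.of_surjective (fun i : Fin 2 => (match i with | 0 => AB.a | 1 => AB.b)) (by
    intro x
    cases x
    · exact ⟨0, rfl⟩
    · exact ⟨1, rfl⟩)

/-- nonterminals: three control symbols `A`, `B`, `F`, markers `M`, counters `Y`, `D` -/
inductive NT
  | A
  | B
  | F
  | M
  | Y
  | D
deriving DecidableEq

instance : Finite NT :=
  Finite.of_surjective (fun i : Fin 6 => (match i with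
    | 0 => NT.A | 1 => NT.B | 2 => NT.F | 3 => NT.M | 4 => NT.Y | 5 => NT.D)) (by
    intro x
    cases x
    · exact ⟨0, rfl⟩
    · exact ⟨1, rfl⟩
    · exact ⟨2, rfl⟩
    · exact ⟨3, rfl⟩
    · exact ⟨4, rfl⟩
    · exact ⟨5, rfl⟩)

open NT

abbrev V := NT ⊕ AB

abbrev n' (x : NT) : V := Sum.inl x

/-- the rules of the grammar -/
def rulesL : List (V × List V × Finset NT) :=
  [(n' A, [n' A], ∅), (n' A, [n' B], ∅), (n' B, [n' A, n' M], ∅), (n' B, [n' F, n' M], ∅),
    (n' F, [Sum.inr AB.a], ∅),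
    (n' M, [n' M], {B, F}), (n' Y, [n' Y], {B, F}), (n' Y, [n' D], {B, F, Y}),
    (n' D, [n' D, n' D], {B, F}),
    (n' M, [n' M], {A, F}), (n' D, [n' Y], {A, F}),
    (n' M, [Sum.inr AB.a], {A, B}), (n' Y, [Sum.inr AB.b], {A, B})]

/-- The propagating left forbidding grammar. -/
abbrev gram : LFE0L AB where
  N := NT
  finN := inferInstance
  rules := rulesL.toFinset
  ax := [n' A, n' Y, n' Y]
  ax_ne := by simp

theorem mem_rules (X : V) (y : List V) (W : Finset NT) :
    (X, y, W) ∈ gram.rules ↔ (X, y, W) ∈ rulesL := by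
  show (X, y, W) ∈ rulesL.toFinset ↔ _
  exact List.mem_toFinset

theorem rules_cases (X : V) (y : List V) (W : Finset NT) (h : (X, y, W) ∈ gram.rules) :
    (X = n' A ∧ y = [n' A] ∧ W = ∅) ∨ (X = n' A ∧ y = [n' B] ∧ W = ∅) ∨
    (X = n' B ∧ y = [n' A, n' M] ∧ W = ∅) ∨ (X = n' B ∧ y = [n' F, n' M] ∧ W = ∅) ∨
    (X = n' F ∧ y = [Sum.inr AB.a] ∧ W = ∅) ∨
    (X = n' M ∧ y = [n' M] ∧ W = {B, F}) ∨ (X = n' Y ∧ y = [n' Y] ∧ W = {B, F}) ∨
    (X = n' Y ∧ y = [n' D] ∧ W = {B, F, Y}) ∨ (X = n' D ∧ y = [n' D, n' D] ∧ W = {B, F}) ∨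
    (X = n' M ∧ y = [n' M] ∧ W = {A, F}) ∨ (X = n' D ∧ y = [n' Y] ∧ W = {A, F}) ∨
    (X = n' M ∧ y = [Sum.inr AB.a] ∧ W = {A, B}) ∨
    (X = n' Y ∧ y = [Sum.inr AB.b] ∧ W = {A, B}) := by
  have h1 := (mem_rules X y W).1 h
  unfold rulesL at h1
  simp only [List.mem_cons, List.not_mem_nil, or_false, Prod.mk.injEq] at h1
  exact h1

theorem gram_propagating : gram.Propagating := by
  rintro ⟨X, y, W⟩ hr
  rcases rules_cases X y W hr with h | h | h | h | h | h | h | h | h | h | h | h | h <;>
    (rw [show (X, y, W).2.1 = y from rfl, h.2.1]; exact List.cons_ne_nil _ _)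

/-- recursive form of a step -/
def LS (left : List V) : List V → List V → Prop
  | [], v => v = []
  | X :: u, v => ∃ y v', v = y ++ v' ∧ (∃ W, (X, y, W) ∈ gram.rules ∧ ∀ Z ∈ W, n' Z ∉ left) ∧
      LS (left ++ [X]) u v'

theorem ls_iff (u : List V) : ∀ (left v : List V), LS left u v ↔
    ∃ ys : List (List V), ys.length = u.length ∧ v = ys.flatten ∧
    ∀ (i : ℕ) (hi : i < u.length) (hi' : i < ys.length),
      ∃ W : Finset NT, (u[i], ys[i], W) ∈ gram.rules ∧ ∀ Z ∈ W, n' Z ∉ left ++ u.take i := by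
  induction u with
  | nil =>
    intro left v
    constructor
    · intro h
      exact ⟨[], rfl, h, by intro i hi; simp at hi⟩
    · rintro ⟨ys, h1, h2, -⟩
      have : ys = [] := List.length_eq_zero_iff.1 h1
      subst this
      exact h2
  | cons X u ih =>
    intro left v
    constructor
    · rintro ⟨y, v', rfl, ⟨W, hW, hW'⟩, h⟩
      obtain ⟨ys, h1, h2, h3⟩ := (ih _ _).1 h
      refine ⟨y :: ys, by simp [h1], by simp [h2], ?_⟩
      intro i hi hi'
      cases i with
      | zero =>
        refine ⟨W, hW, ?_⟩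
        rw [List.take_zero, List.append_nil]
        exact hW'
      | succ i =>
        obtain ⟨W', g1, g2⟩ := h3 i (by simpa using hi) (by simpa using hi')
        refine ⟨W', g1, ?_⟩
        intro Z hZ
        have := g2 Z hZ
        simp only [List.take_succ_cons, List.append_assoc, List.singleton_append] at this ⊢
        exact this
    · rintro ⟨ys, h1, h2, h3⟩
      cases ys with
      | nil => simp at h1
      | cons y ys =>
        refine ⟨y, ys.flatten, by simp [h2], ?_, (ih _ _).2 ⟨ys, by simpa using h1, rfl, ?_⟩⟩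
        · obtain ⟨W, g1, g2⟩ := h3 0 (by simp) (by simp)
          refine ⟨W, g1, ?_⟩
          rw [List.take_zero, List.append_nil] at g2
          exact g2
        · intro i hi hi'
          obtain ⟨W, g1, g2⟩ := h3 (i + 1) (by simpa using hi) (by simpa using hi')
          refine ⟨W, g1, ?_⟩
          intro Z hZ
          have := g2 Z hZ
          simp only [List.take_succ_cons, List.append_assoc, List.singleton_append] at this ⊢
          exact this

theorem step_iff (u v : List V) : gram.Step u v ↔ u ≠ [] ∧ LS [] u v := by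
  rw [ls_iff]
  rfl

theorem ls_append {u u' : List V} : ∀ {left v : List V}, LS left (u ++ u') v ↔
    ∃ v1 v2, v = v1 ++ v2 ∧ LS left u v1 ∧ LS (left ++ u) u' v2 := by
  induction u with
  | nil =>
    intro left v
    simp [LS]
  | cons X u ih =>
    intro left v
    simp only [List.cons_append, LS]
    constructor
    · rintro ⟨y, v', rfl, hW, h⟩
      obtain ⟨v1, v2, rfl, h1, h2⟩ := ih.1 h
      exact ⟨y ++ v1, v2, by simp, ⟨y, v1, rfl, hW, h1⟩, by simpa using h2⟩
    · rintro ⟨v1, v2, rfl, ⟨y, v', rfl, hW, h1⟩, h2⟩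
      exact ⟨y, v' ++ v2, by simp, hW, ih.2 ⟨v', v2, rfl, h1, by simpa using h2⟩⟩

/-! ### Which rules apply -/

theorem rule_A {left y : List V} (h : ∃ W, (n' A, y, W) ∈ gram.rules ∧ ∀ Z ∈ W, n' Z ∉ left) :
    y = [n' A] ∨ y = [n' B] := by
  obtain ⟨W, h1, -⟩ := h
  have h3 := rules_cases _ _ _ h1
  simp at h3
  tauto

theorem rule_B {left y : List V} (h : ∃ W, (n' B, y, W) ∈ gram.rules ∧ ∀ Z ∈ W, n' Z ∉ left) :
    y = [n' A, n' M] ∨ y = [n' F, n' M] := by
  obtain ⟨W, h1, -⟩ := h
  have h3 := rules_cases _ _ _ h1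
  simp at h3
  tauto

theorem rule_F {left y : List V} (h : ∃ W, (n' F, y, W) ∈ gram.rules ∧ ∀ Z ∈ W, n' Z ∉ left) :
    y = [Sum.inr AB.a] := by
  obtain ⟨W, h1, -⟩ := h
  have h3 := rules_cases _ _ _ h1
  simp at h3
  tauto

theorem rule_t {left y : List V} {c : AB}
    (h : ∃ W, ((Sum.inr c : V), y, W) ∈ gram.rules ∧ ∀ Z ∈ W, n' Z ∉ left) : False := by
  obtain ⟨W, h1, -⟩ := h
  have h3 := rules_cases _ _ _ h1
  simp at h3

theorem rule_M {left y : List V} (h : ∃ W, (n' M, y, W) ∈ gram.rules ∧ ∀ Z ∈ W, n' Z ∉ left) :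
    (n' A ∈ left → y = [n' M]) ∧ (n' B ∈ left → y = [n' M]) ∧
      (n' F ∈ left → y = [Sum.inr AB.a]) := by
  obtain ⟨W, h1, h2⟩ := h
  have h3 := rules_cases _ _ _ h1
  simp at h3
  rcases h3 with ⟨rfl, rfl⟩ | ⟨rfl, rfl⟩ | ⟨rfl, rfl⟩ <;> simp at h2 ⊢ <;> tauto

theorem rule_Y {left y : List V} (h : ∃ W, (n' Y, y, W) ∈ gram.rules ∧ ∀ Z ∈ W, n' Z ∉ left) :
    (n' A ∈ left → y = [n' Y] ∨ (y = [n' D] ∧ n' Y ∉ left)) ∧ (n' B ∉ left) ∧
      (n' F ∈ left → y = [Sum.inr AB.b]) := by
  obtain ⟨W, h1, h2⟩ := h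
  have h3 := rules_cases _ _ _ h1
  simp at h3
  rcases h3 with ⟨rfl, rfl⟩ | ⟨rfl, rfl⟩ | ⟨rfl, rfl⟩ <;> simp at h2 ⊢ <;> tauto

theorem rule_D {left y : List V} (h : ∃ W, (n' D, y, W) ∈ gram.rules ∧ ∀ Z ∈ W, n' Z ∉ left) :
    (n' A ∈ left → y = [n' D, n' D]) ∧ (n' B ∈ left → y = [n' Y]) ∧ (n' F ∉ left) := by
  obtain ⟨W, h1, h2⟩ := h
  have h3 := rules_cases _ _ _ h1
  simp at h3
  rcases h3 with ⟨rfl, rfl⟩ | ⟨rfl, rfl⟩ <;> simp at h2 ⊢ <;> tauto

/-- number of occurrences of a nonterminal -/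
def cn (X : NT) : List V → ℕ
  | [] => 0
  | s :: w => cn X w + (if s = n' X then 1 else 0)

theorem cn_nil (X : NT) : cn X [] = 0 := rfl
theorem cYY (w : List V) : cn Y (n' Y :: w) = cn Y w + 1 := rfl
theorem cYD (w : List V) : cn Y (n' D :: w) = cn Y w := rfl
theorem cDD (w : List V) : cn D (n' D :: w) = cn D w + 1 := rfl
theorem cDY (w : List V) : cn D (n' Y :: w) = cn D w := rfl

/-- words over `Y`, `D` -/
def YD (w : List V) : Prop := ∀ s ∈ w, s = n' Y ∨ s = n' D

theorem ls_M {X : NT} {y : List V} (hrule : ∀ (left z : List V), n' X ∈ left →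
      (∃ W, (n' M, z, W) ∈ gram.rules ∧ ∀ Z ∈ W, n' Z ∉ left) → z = y) (j : ℕ) :
    ∀ {left v : List V}, n' X ∈ left → LS left (replicate j (n' M)) v →
      v = (replicate j y).flatten := by
  induction j with
  | zero => intro left v _ h; simpa [LS] using h
  | succ j ih =>
    intro left v hX h
    rw [List.replicate_succ] at h
    obtain ⟨z, v', rfl, h1, h2⟩ := h
    rw [hrule left z hX h1, ih (by simp [hX]) h2]
    simp [List.replicate_succ]

/-- phase `A` after a `Y` has been seen: no further `Y` is consumed -/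
theorem ls_A_after {w : List V} : ∀ {left v : List V}, YD w → n' A ∈ left → n' Y ∈ left →
    LS left w v → YD v ∧ cn Y v = cn Y w ∧ cn D v = 2 * cn D w := by
  induction w with
  | nil => intro left v _ _ _ h; rw [show v = [] from h]; simp [YD, cn_nil]
  | cons s w ih =>
    intro left v hw hA hY h
    obtain ⟨y, v', rfl, h1, h2⟩ := h
    obtain ⟨i1, i2, i3⟩ := ih (fun t ht => hw t (by simp [ht])) (by simp [hA]) (by simp [hY]) h2
    rcases hw s (by simp) with rfl | rfl
    · rcases (rule_Y h1).1 hA with rfl | ⟨-, h⟩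
      · refine ⟨?_, ?_, ?_⟩
        · intro t ht
          rcases List.mem_append.1 ht with ht | ht
          · left; simpa using ht
          · exact i1 t ht
        · simp only [List.cons_append, List.nil_append, cYY, cYD, cDD, cDY, i2]
        · simp only [List.cons_append, List.nil_append, cYY, cYD, cDD, cDY, i3]
      · exact absurd hY h
    · rw [(rule_D h1).1 hA]
      refine ⟨?_, ?_, ?_⟩
      · intro t ht
        rcases List.mem_append.1 ht with ht | ht
        · right; simpa using ht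
        · exact i1 t ht
      · simp only [List.cons_append, List.nil_append, cYY, cYD, cDD, cDY, i2]
      · simp only [List.cons_append, List.nil_append, cYY, cYD, cDD, cDY, i3]; ring

/-- phase `A` -/
theorem ls_A {w : List V} : ∀ {left v : List V}, YD w → n' A ∈ left →
    LS left w v → YD v ∧ ((cn Y v = cn Y w ∧ cn D v = 2 * cn D w) ∨
      (cn Y v + 1 = cn Y w ∧ cn D v = 2 * cn D w + 1)) := by
  induction w with
  | nil => intro left v _ _ h; rw [show v = [] from h]; simp [YD, cn_nil]
  | cons s w ih =>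
    intro left v hw hA h
    obtain ⟨y, v', rfl, h1, h2⟩ := h
    rcases hw s (by simp) with rfl | rfl
    · obtain ⟨i1, i2, i3⟩ := ls_A_after (fun t ht => hw t (by simp [ht])) (by simp [hA])
        (by simp) h2
      rcases (rule_Y h1).1 hA with rfl | ⟨rfl, -⟩
      · refine ⟨?_, Or.inl ⟨by simp only [List.cons_append, List.nil_append, cYY, i2],
          by simp only [List.cons_append, List.nil_append, cDY, i3]⟩⟩
        intro t ht
        rcases List.mem_append.1 ht with ht | ht
        · left; simpa using ht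
        · exact i1 t ht
      · refine ⟨?_, Or.inr ⟨by simp only [List.cons_append, List.nil_append, cYY, cYD, i2],
          by simp only [List.cons_append, List.nil_append, cDY, cDD, i3]⟩⟩
        intro t ht
        rcases List.mem_append.1 ht with ht | ht
        · right; simpa using ht
        · exact i1 t ht
    · obtain ⟨i1, i2⟩ := ih (fun t ht => hw t (by simp [ht])) (by simp [hA]) h2
      rw [(rule_D h1).1 hA]
      refine ⟨?_, ?_⟩
      · intro t ht
        rcases List.mem_append.1 ht with ht | ht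
        · right; simpa using ht
        · exact i1 t ht
      · rcases i2 with ⟨i2, i3⟩ | ⟨i2, i3⟩
        · left
          simp only [List.cons_append, List.nil_append, cYD, cDD, i2, i3]
          exact ⟨trivial, by ring⟩
        · right
          simp only [List.cons_append, List.nil_append, cYD, cDD, i2, i3]
          exact ⟨trivial, by ring⟩

/-- phase `B` -/
theorem ls_B {w : List V} : ∀ {left v : List V}, YD w → n' B ∈ left →
    LS left w v → cn Y w = 0 ∧ v = replicate (cn D w) (n' Y) := by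
  induction w with
  | nil => intro left v _ _ h; rw [show v = [] from h]; simp [cn_nil]
  | cons s w ih =>
    intro left v hw hB h
    obtain ⟨y, v', rfl, h1, h2⟩ := h
    obtain ⟨i1, i2⟩ := ih (fun t ht => hw t (by simp [ht])) (by simp [hB]) h2
    rcases hw s (by simp) with rfl | rfl
    · exact absurd hB (rule_Y h1).2.1
    · rw [(rule_D h1).2.1 hB, i2, cYD, cDD, i1]
      exact ⟨rfl, by simp [List.replicate_succ]⟩

/-- phase `F` -/
theorem ls_F (p : ℕ) : ∀ {left v : List V}, n' F ∈ left →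
    LS left (replicate p (n' Y)) v → v = replicate p (Sum.inr AB.b) := by
  induction p with
  | zero => intro left v _ h; simpa [LS] using h
  | succ p ih =>
    intro left v hF h
    rw [List.replicate_succ] at h
    obtain ⟨y, v', rfl, h1, h2⟩ := h
    rw [(rule_Y h1).2.2 hF, ih (by simp [hF]) h2]
    simp [List.replicate_succ]

end Q231.LS
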