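import Mathlib

/-!
Pumping for table-driven parallel rewriting (ET0L) with a marked letter.
-/

namespace Q231.LS

open List

variable {V ι : Type} (tb : ι → V → Finset (List V))

def StepT (h : ι) (u v : List V) : Prop :=
  ∃ ys : List (List V), List.Forall₂ (fun X y => y ∈ tb h X) u ys ∧ v = ys.flatten

def Der : List ι → List V → List V → Prop
  | [], u, v => u = v
  | h :: τ, u, v => ∃ w, StepT tb h u w ∧ Der τ w v

variable {tb}

theorem stepT_append {h : ι} {u u' v : List V} :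
    StepT tb h (u ++ u') v ↔ ∃ v1 v2, v = v1 ++ v2 ∧ StepT tb h u v1 ∧ StepT tb h u' v2 := by
  constructor
  · rintro ⟨ys, hys, rfl⟩
    obtain ⟨y1, y2, rfl, h1, h2⟩ : ∃ y1 y2, ys = y1 ++ y2 ∧
        List.Forall₂ (fun X y => y ∈ tb h X) u y1 ∧ List.Forall₂ (fun X y => y ∈ tb h X) u' y2 := by
      induction u generalizing ys with
      | nil => exact ⟨[], ys, rfl, List.Forall₂.nil, hys⟩
      | cons a u ih =>
        cases hys with
        | cons ha hr =>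
          obtain ⟨y1, y2, rfl, h1, h2⟩ := ih _ hr
          exact ⟨_ :: y1, y2, rfl, List.Forall₂.cons ha h1, h2⟩
    exact ⟨y1.flatten, y2.flatten, by simp, ⟨y1, h1, rfl⟩, ⟨y2, h2, rfl⟩⟩
  · rintro ⟨v1, v2, rfl, ⟨y1, h1, rfl⟩, ⟨y2, h2, rfl⟩⟩
    refine ⟨y1 ++ y2, ?_, by simp⟩
    exact List.rel_append h1 h2

theorem stepT_nil {h : ι} {v : List V} : StepT tb h [] v ↔ v = [] := by
  constructor
  · rintro ⟨ys, hys, rfl⟩
    cases hys
    rfl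
  · rintro rfl
    exact ⟨[], List.Forall₂.nil, rfl⟩

theorem stepT_single {h : ι} {X : V} {v : List V} : StepT tb h [X] v ↔ v ∈ tb h X := by
  constructor
  · rintro ⟨ys, hys, rfl⟩
    cases hys with
    | cons ha hr => cases hr; simpa using ha
  · intro hv
    exact ⟨[v], List.Forall₂.cons hv List.Forall₂.nil, by simp⟩

theorem der_append {τ : List ι} {u u' v : List V} :
    Der tb τ (u ++ u') v ↔ ∃ v1 v2, v = v1 ++ v2 ∧ Der tb τ u v1 ∧ Der tb τ u' v2 := by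
  induction τ generalizing u u' with
  | nil =>
    simp only [Der]
    constructor
    · rintro rfl; exact ⟨u, u', rfl, rfl, rfl⟩
    · rintro ⟨v1, v2, rfl, rfl, rfl⟩; rfl
  | cons h τ ih =>
    simp only [Der]
    constructor
    · rintro ⟨w, hw, hd⟩
      obtain ⟨w1, w2, rfl, h1, h2⟩ := stepT_append.1 hw
      obtain ⟨v1, v2, rfl, d1, d2⟩ := ih.1 hd
      exact ⟨v1, v2, rfl, ⟨w1, h1, d1⟩, ⟨w2, h2, d2⟩⟩
    · rintro ⟨v1, v2, rfl, ⟨w1, h1, d1⟩, ⟨w2, h2, d2⟩⟩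
      exact ⟨w1 ++ w2, stepT_append.2 ⟨w1, w2, rfl, h1, h2⟩, ih.2 ⟨v1, v2, rfl, d1, d2⟩⟩

theorem der_nil {τ : List ι} {v : List V} : Der tb τ [] v ↔ v = [] := by
  induction τ with
  | nil => simp only [Der]; exact eq_comm
  | cons h τ ih =>
    simp only [Der]
    constructor
    · rintro ⟨w, hw, hd⟩
      rw [stepT_nil.1 hw] at hd
      exact ih.1 hd
    · intro hv
      exact ⟨[], stepT_nil.2 rfl, ih.2 hv⟩

theorem der_trans {σ τ : List ι} {u v : List V} :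
    Der tb (σ ++ τ) u v ↔ ∃ w, Der tb σ u w ∧ Der tb τ w v := by
  induction σ generalizing u with
  | nil => simp [Der]
  | cons h σ ih =>
    simp only [List.cons_append, Der]
    constructor
    · rintro ⟨w, hw, hd⟩
      obtain ⟨z, h1, h2⟩ := ih.1 hd
      exact ⟨z, ⟨w, hw, h1⟩, h2⟩
    · rintro ⟨z, ⟨w, hw, h1⟩, h2⟩
      exact ⟨w, hw, ih.2 ⟨z, h1, h2⟩⟩

theorem der_cons {τ : List ι} {c : V} {u v : List V} :
    Der tb τ (c :: u) v ↔ ∃ v1 v2, v = v1 ++ v2 ∧ Der tb τ [c] v1 ∧ Der tb τ u v2 := by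
  rw [show c :: u = [c] ++ u from rfl, der_append]

theorem der_flatMap {τ : List ι} {u : List V} {f : V → List V}
    (hf : ∀ s ∈ u, Der tb τ [s] (f s)) : Der tb τ u (u.flatMap f) := by
  induction u with
  | nil => exact der_nil.2 rfl
  | cons c u ih =>
    rw [List.flatMap_cons]
    exact der_cons.2 ⟨_, _, rfl, hf c (by simp), ih fun s hs => hf s (by simp [hs])⟩

variable (tb) (tm mk : V → Prop)

/-- symbols with a terminal yield under the table word -/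
def Gd (τ : List ι) : Set V := {c | ∃ g, Der tb τ [c] g ∧ ∀ x ∈ g, tm x}

/-- symbols with a terminal yield containing the marked letter -/
def Al (τ : List ι) : Set V := {c | ∃ g, Der tb τ [c] g ∧ (∀ x ∈ g, tm x) ∧ ∃ x ∈ g, mk x}

variable {tb tm mk}

theorem al_sub {τ : List ι} {c : V} (h : c ∈ Al tb tm mk τ) : c ∈ Gd tb tm τ := by
  obtain ⟨g, h1, h2, -⟩ := h
  exact ⟨g, h1, h2⟩

theorem split_gd {τ : List ι} {w g : List V} (h : Der tb τ w g) (ht : ∀ x ∈ g, tm x) :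
    (∀ s ∈ w, s ∈ Gd tb tm τ) ∧ ((∃ x ∈ g, mk x) → ∃ s ∈ w, s ∈ Al tb tm mk τ) := by
  induction w generalizing g with
  | nil =>
    rw [der_nil.1 h]
    simp
  | cons c w ih =>
    obtain ⟨g1, g2, rfl, h1, h2⟩ := der_cons.1 h
    obtain ⟨i1, i2⟩ := ih h2 fun x hx => ht x (by simp [hx])
    constructor
    · intro s hs
      rcases List.mem_cons.1 hs with rfl | hs
      · exact ⟨g1, h1, fun x hx => ht x (by simp [hx])⟩
      · exact i1 s hs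
    · rintro ⟨x, hx, hm⟩
      rcases List.mem_append.1 hx with hx | hx
      · exact ⟨c, by simp, g1, h1, fun x hx => ht x (by simp [hx]), x, hx, hm⟩
      · obtain ⟨s, hs, hs'⟩ := i2 ⟨x, hx, hm⟩
        exact ⟨s, by simp [hs], hs'⟩

/-- a good symbol can be expanded to a good word, keeping marked potential -/
theorem extend_symbol {σ τ : List ι} {c : V} (h : c ∈ Gd tb tm (σ ++ τ)) :
    ∃ y, Der tb σ [c] y ∧ (∀ s ∈ y, s ∈ Gd tb tm τ) ∧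
      (c ∈ Al tb tm mk (σ ++ τ) → ∃ s ∈ y, s ∈ Al tb tm mk τ) := by
  by_cases hc : c ∈ Al tb tm mk (σ ++ τ)
  · obtain ⟨g, h1, h2, h3⟩ := hc
    obtain ⟨w, hw, hg⟩ := der_trans.1 h1
    obtain ⟨i1, i2⟩ := split_gd (mk := mk) hg h2
    exact ⟨w, hw, i1, fun _ => i2 h3⟩
  · obtain ⟨g, h1, h2⟩ := h
    obtain ⟨w, hw, hg⟩ := der_trans.1 h1
    obtain ⟨i1, i2⟩ := split_gd (mk := mk) hg h2
    exact ⟨w, hw, i1, fun h => absurd h hc⟩

theorem extend_word {σ τ : List ι} {u : List V} (h : ∀ s ∈ u, s ∈ Gd tb tm (σ ++ τ)) :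
    ∃ y, Der tb σ u y ∧ (∀ s ∈ y, s ∈ Gd tb tm τ) ∧
      ((∃ s ∈ u, s ∈ Al tb tm mk (σ ++ τ)) → ∃ s ∈ y, s ∈ Al tb tm mk τ) := by
  induction u with
  | nil => exact ⟨[], der_nil.2 rfl, by simp, by simp⟩
  | cons c u ih =>
    obtain ⟨y, h1, h2, h3⟩ := ih fun s hs => h s (by simp [hs])
    obtain ⟨z, g1, g2, g3⟩ := extend_symbol (mk := mk) (h c (by simp))
    refine ⟨z ++ y, der_cons.2 ⟨_, _, rfl, g1, h1⟩, ?_, ?_⟩
    · intro s hs
      rcases List.mem_append.1 hs with hs | hs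
      · exact g2 s hs
      · exact h2 s hs
    · rintro ⟨s, hs, hs'⟩
      rcases List.mem_cons.1 hs with rfl | hs
      · obtain ⟨t, ht, ht'⟩ := g3 hs'
        exact ⟨t, by simp [ht], ht'⟩
      · obtain ⟨t, ht, ht'⟩ := h3 ⟨s, hs, hs'⟩
        exact ⟨t, by simp [ht], ht'⟩

variable (tb tm mk)

/-- from `p` one can reach the symbol `q.2` at the moment when the table word `q.1` remains,
all other symbols being good -/
def R1 (p q : List ι × V) : Prop :=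
  ∃ σ y1 y2, p.1 = σ ++ q.1 ∧ Der tb σ [p.2] (y1 ++ q.2 :: y2) ∧
    (∀ s ∈ y1 ++ y2, s ∈ Gd tb tm q.1) ∧ q.2 ∈ Al tb tm mk q.1

def R2 (p q : List ι × V) : Prop :=
  ∃ σ y1 y2, p.1 = σ ++ q.1 ∧ Der tb σ [p.2] (y1 ++ q.2 :: y2) ∧
    (∀ s ∈ y1 ++ y2, s ∈ Gd tb tm q.1) ∧ q.2 ∈ Al tb tm mk q.1 ∧
    ∃ s ∈ y1 ++ y2, s ∈ Al tb tm mk q.1

variable {tb tm mk}

theorem R2.toR1 {p q : List ι × V} (h : R2 tb tm mk p q) : R1 tb tm mk p q := by
  obtain ⟨σ, y1, y2, h1, h2, h3, h4, -⟩ := h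
  exact ⟨σ, y1, y2, h1, h2, h3, h4⟩

theorem R1.refl {p : List ι × V} (h : p.2 ∈ Al tb tm mk p.1) : R1 tb tm mk p p :=
  ⟨[], [], [], rfl, rfl, by simp, h⟩

theorem compose_aux {p q r : List ι × V} {σ y1 y2} (h1 : p.1 = σ ++ q.1)
    (h2 : Der tb σ [p.2] (y1 ++ q.2 :: y2)) (h3 : ∀ s ∈ y1 ++ y2, s ∈ Gd tb tm q.1)
    {σ' z1 z2} (g1 : q.1 = σ' ++ r.1) (g2 : Der tb σ' [q.2] (z1 ++ r.2 :: z2))
    (g3 : ∀ s ∈ z1 ++ z2, s ∈ Gd tb tm r.1) :
    ∃ x1 x2, p.1 = (σ ++ σ') ++ r.1 ∧ Der tb (σ ++ σ') [p.2] (x1 ++ r.2 :: x2) ∧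
      (∀ s ∈ x1 ++ x2, s ∈ Gd tb tm r.1) ∧
      ((∃ s ∈ y1 ++ y2, s ∈ Al tb tm mk q.1) → ∃ s ∈ x1 ++ x2, s ∈ Al tb tm mk r.1) ∧
      ((∃ s ∈ z1 ++ z2, s ∈ Al tb tm mk r.1) → ∃ s ∈ x1 ++ x2, s ∈ Al tb tm mk r.1) := by
  rw [g1] at h3
  obtain ⟨w1, a1, a2, a3⟩ := extend_word (mk := mk) (u := y1) fun s hs => h3 s (by simp [hs])
  obtain ⟨w2, b1, b2, b3⟩ := extend_word (mk := mk) (u := y2) fun s hs => h3 s (by simp [hs])
  refine ⟨w1 ++ z1, z2 ++ w2, ?_, ?_, ?_, ?_, ?_⟩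
  · rw [h1, g1, List.append_assoc]
  · refine der_trans.2 ⟨_, h2, ?_⟩
    have e : (w1 ++ z1) ++ r.2 :: (z2 ++ w2) = w1 ++ ((z1 ++ r.2 :: z2) ++ w2) := by simp
    rw [e]
    exact der_append.2 ⟨_, _, rfl, a1, der_cons.2 ⟨_, _, rfl, g2, b1⟩⟩
  · intro s hs
    simp only [List.mem_append] at hs
    rcases hs with (hs | hs) | (hs | hs)
    · exact a2 s hs
    · exact g3 s (by simp [hs])
    · exact g3 s (by simp [hs])
    · exact b2 s hs
  · rintro ⟨s, hs, hs'⟩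
    rw [g1] at hs'
    rcases List.mem_append.1 hs with hs | hs
    · obtain ⟨t, ht, ht'⟩ := a3 ⟨s, hs, hs'⟩
      exact ⟨t, by simp [ht], ht'⟩
    · obtain ⟨t, ht, ht'⟩ := b3 ⟨s, hs, hs'⟩
      exact ⟨t, by simp [ht], ht'⟩
  · rintro ⟨s, hs, hs'⟩
    rcases List.mem_append.1 hs with hs | hs
    · exact ⟨s, by simp [hs], hs'⟩
    · exact ⟨s, by simp [hs], hs'⟩

theorem R1.trans {p q r : List ι × V} (h : R1 tb tm mk p q) (g : R1 tb tm mk q r) :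
    R1 tb tm mk p r := by
  obtain ⟨σ, y1, y2, h1, h2, h3, h4⟩ := h
  obtain ⟨σ', z1, z2, g1, g2, g3, g4⟩ := g
  obtain ⟨x1, x2, e1, e2, e3, -, -⟩ := compose_aux (mk := mk) h1 h2 h3 g1 g2 g3
  exact ⟨_, x1, x2, e1, e2, e3, g4⟩

theorem R2.trans_R1 {p q r : List ι × V} (h : R2 tb tm mk p q) (g : R1 tb tm mk q r) :
    R2 tb tm mk p r := by
  obtain ⟨σ, y1, y2, h1, h2, h3, h4, h5⟩ := h
  obtain ⟨σ', z1, z2, g1, g2, g3, g4⟩ := g
  obtain ⟨x1, x2, e1, e2, e3, e4, -⟩ := compose_aux (mk := mk) h1 h2 h3 g1 g2 g3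
  exact ⟨_, x1, x2, e1, e2, e3, g4, e4 h5⟩

end Q231.LS
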